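import Pool.Agent.H3R4.TAM.Main

/-!
# (TAM) implies that first countable Čech-complete ccc spaces are separable

A full answer to Q1.  `CCC`, `Centered` and `TAM` are defined in `Pool/Agent/H3R4/TAM/Poset.lean`:

* `CCC X`: every family of pairwise disjoint nonempty open subsets of `X` is countable;
* `Centered η`: every finite subfamily of `η` has nonempty intersection;
* `TAM.{u}`: for every Hausdorff space `X : Type u` with `CCC X`, every uncountable family of
  nonempty open subsets of `X` has an uncountable centered subfamily.
-/

set_option autoImplicit false

namespace Pool.Agent.Results.MP_4ebb14_gt.CechCompleteSeparable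

open Pool.Agent.H3R4.Pre

universe u

/-- Čech-completeness: `X` is Tychonoff and a `G_δ` subset of its Stone–Čech compactification -/
def CechComplete (X : Type u) [TopologicalSpace X] : Prop :=
  T35Space X ∧ IsGδ (Set.range (stoneCechUnit : X → StoneCech X))

/-- Under (TAM), every first countable Čech-complete space with the countable chain condition is
separable. -/
theorem result (T : TAM.{u}) (X : Type u) [TopologicalSpace X] [FirstCountableTopology X]
    (hX : CechComplete X) (hc : CCC X) : TopologicalSpace.SeparableSpace X := by
  have := hX.1
  exact ⟨main T hc stoneCechUnit isInducing_stoneCechUnit hX.2⟩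

end Pool.Agent.Results.MP_4ebb14_gt.CechCompleteSeparable
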